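import Pool.Agent.W626.AH.Stm

set_option autoImplicit false
set_option linter.all false

namespace Pool.Agent.W918.AH

open Pool.Agent.W626.AH

theorem lemA {X : Type} [Nonempty X] (d : X → X → ℝ)
    (he : ∀ x : X, ∃ e : Hull d, (∀ y, e.1 y = d x y) ∧ ∀ f : Hull d, hd f e = f.1 x)
    (hh : H1 (hd : Hull d → Hull d → ℝ)) (F H : Hull d) (x y : X)
    (h : F.1 x + F.1 y ≤ d x y + 1) : hd F H ≤ max (H.1 x - F.1 x) (H.1 y - F.1 y) + 2 := by
  obtain ⟨ex, hex, hex'⟩ := he x
  obtain ⟨ey, hey, hey'⟩ := he y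
  have h1 := hh F H ex ey
  rw [hex', hey', hey', hex', hey', hex] at h1
  rcases max_cases (F.1 x + H.1 y) (F.1 y + H.1 x) with ⟨h2, _⟩ | ⟨h2, _⟩
  · rw [h2] at h1
    have := le_max_right (H.1 x - F.1 x) (H.1 y - F.1 y)
    linarith
  · rw [h2] at h1
    have := le_max_left (H.1 x - F.1 x) (H.1 y - F.1 y)
    linarith

theorem main : S_hm → S_hh → S_vup := by
  intro hm hhh X _ d hd0 hH f h x y x' y' hf hh
  obtain ⟨m1, m2, m3, m4, m5⟩ := hm X d hd0
  have hh1 := hhh X d hd0 hH
  have hA := lemA d m5 hh1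
  constructor
  · have key : ∀ u u' : X, d u u' - f.1 u - h.1 u' ≤ hd f h := by
      intro u u'
      have a1 := h.2.1 u u'
      have a2 := m1 f h u
      have a3 := neg_abs_le (f.1 u - h.1 u)
      linarith
    unfold vd
    exact max_le (max_le (key _ _) (key _ _)) (max_le (key _ _) (key _ _))
  · have key : ∀ u : X, h.1 u ≤ max (d u x' - h.1 x') (d u y' - h.1 y') + 2 := by
      intro u
      obtain ⟨e, he, he'⟩ := m5 u
      have := hA h e x' y' hh
      rw [he', he, he] at this
      exact this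
    have b1 : h.1 x - f.1 x ≤ max (d x x' - f.1 x - h.1 x') (d x y' - f.1 x - h.1 y') + 2 := by
      have := key x
      rcases max_cases (d x x' - h.1 x') (d x y' - h.1 y') with ⟨h2, _⟩ | ⟨h2, _⟩
      · rw [h2] at this
        have := le_max_left (d x x' - f.1 x - h.1 x') (d x y' - f.1 x - h.1 y')
        linarith
      · rw [h2] at this
        have := le_max_right (d x x' - f.1 x - h.1 x') (d x y' - f.1 x - h.1 y')
        linarith
    have b2 : h.1 y - f.1 y ≤ max (d y x' - f.1 y - h.1 x') (d y y' - f.1 y - h.1 y') + 2 := by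
      have := key y
      rcases max_cases (d y x' - h.1 x') (d y y' - h.1 y') with ⟨h2, _⟩ | ⟨h2, _⟩
      · rw [h2] at this
        have := le_max_left (d y x' - f.1 y - h.1 x') (d y y' - f.1 y - h.1 y')
        linarith
      · rw [h2] at this
        have := le_max_right (d y x' - f.1 y - h.1 x') (d y y' - f.1 y - h.1 y')
        linarith
    have b3 := hA f h x y hf
    unfold vd
    show hd f h ≤ max (max (d x x' - f.1 x - h.1 x') (d x y' - f.1 x - h.1 y'))
      (max (d y x' - f.1 y - h.1 x') (d y y' - f.1 y - h.1 y')) + 4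
    have c1 := le_max_left (max (d x x' - f.1 x - h.1 x') (d x y' - f.1 x - h.1 y'))
      (max (d y x' - f.1 y - h.1 x') (d y y' - f.1 y - h.1 y'))
    have c2 := le_max_right (max (d x x' - f.1 x - h.1 x') (d x y' - f.1 x - h.1 y'))
      (max (d y x' - f.1 y - h.1 x') (d y y' - f.1 y - h.1 y'))
    rcases max_cases (h.1 x - f.1 x) (h.1 y - f.1 y) with ⟨h2, _⟩ | ⟨h2, _⟩
    · rw [h2] at b3
      linarith
    · rw [h2] at b3
      linarith

end Pool.Agent.W918.AH
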